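import Mathlib

/-!
# 7E+ block J: the Riesz product (core, Mathlib only)
-/

set_option autoImplicit false

open Complex MeasureTheory Set

namespace Pool.Agent.Helper10.E7

/-- the character `e(-θ τ)` -/
noncomputable def ch (θ τ : ℝ) : ℂ := cexp (-((2 * Real.pi * θ * τ : ℝ) : ℂ) * I)

theorem ch_add (θ η τ : ℝ) : ch (θ + η) τ = ch θ τ * ch η τ := by
  unfold ch
  rw [← Complex.exp_add]
  congr 1
  push_cast
  ring

theorem ch_neg (θ τ : ℝ) : ch (-θ) τ = (starRingEnd ℂ) (ch θ τ) := by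
  unfold ch
  rw [← Complex.exp_conj]
  congr 1
  simp only [map_mul, map_neg, Complex.conj_ofReal, Complex.conj_I]
  push_cast
  ring

theorem ch_zero (τ : ℝ) : ch 0 τ = 1 := by
  unfold ch
  simp

theorem ch_cont (θ : ℝ) : Continuous (fun τ : ℝ => ch θ τ) := by
  unfold ch
  fun_prop

/-- the real factor `Re (z e(-ω τ))` -/
noncomputable def wf (z : ℂ) (ω τ : ℝ) : ℝ := (z * ch ω τ).re

theorem wf_cont (z : ℂ) (ω : ℝ) : Continuous (fun τ : ℝ => wf z ω τ) := by
  unfold wf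
  exact Complex.continuous_re.comp (continuous_const.mul (ch_cont ω))

theorem wf_eq (z : ℂ) (ω τ : ℝ) : ((wf z ω τ : ℝ) : ℂ) = z / 2 * ch ω τ + (starRingEnd ℂ) z / 2 * ch (-ω) τ := by
  unfold wf
  rw [ch_neg, Complex.re_eq_add_conj, map_mul]
  ring

theorem prod_cont (z : ℕ → ℂ) (ω : ℕ → ℝ) (t : Finset ℕ) :
    Continuous (fun τ : ℝ => ∏ m ∈ t, wf (z m) (ω m) τ) :=
  continuous_finsetProd _ (fun m _ => wf_cont (z m) (ω m))

/-- integral of `g ∏ w e(-θ τ)` -/
noncomputable def J (g : ℝ → ℝ) (R : ℝ) (z : ℕ → ℂ) (ω : ℕ → ℝ) (t : Finset ℕ) (θ : ℝ) : ℂ :=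
  ∫ τ in (0:ℝ)..R, ((g τ : ℝ) : ℂ) * ((∏ m ∈ t, wf (z m) (ω m) τ : ℝ) : ℂ) * ch θ τ

theorem int_aux {g : ℝ → ℝ} {R : ℝ} (hg : IntervalIntegrable g volume 0 R) {h : ℝ → ℂ} (hh : Continuous h) :
    IntervalIntegrable (fun τ => ((g τ : ℝ) : ℂ) * h τ) volume 0 R := by
  have h1 : IntervalIntegrable (fun τ => ((g τ : ℝ) : ℂ)) volume 0 R := ⟨hg.1.ofReal, hg.2.ofReal⟩
  exact h1.mul_continuousOn hh.continuousOn

theorem J_insert {g : ℝ → ℝ} {R : ℝ} (hg : IntervalIntegrable g volume 0 R) (z : ℕ → ℂ) (ω : ℕ → ℝ)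
    {t : Finset ℕ} {a : ℕ} (ha : a ∉ t) (θ : ℝ) :
    J g R z ω (insert a t) θ = z a / 2 * J g R z ω t (θ + ω a) + (starRingEnd ℂ) (z a) / 2 * J g R z ω t (θ - ω a) := by
  unfold J
  rw [← intervalIntegral.integral_const_mul, ← intervalIntegral.integral_const_mul,
    ← intervalIntegral.integral_add]
  · apply intervalIntegral.integral_congr
    intro τ _
    simp only
    rw [Finset.prod_insert ha, Complex.ofReal_mul, wf_eq, ch_add, sub_eq_add_neg, ch_add]
    ring
  · apply IntervalIntegrable.const_mul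
    have := int_aux hg (h := fun τ => ((∏ m ∈ t, wf (z m) (ω m) τ : ℝ) : ℂ) * ch (θ + ω a) τ)
      ((Complex.continuous_ofReal.comp (prod_cont z ω t)).mul (ch_cont _))
    simpa [mul_assoc] using this
  · apply IntervalIntegrable.const_mul
    have := int_aux hg (h := fun τ => ((∏ m ∈ t, wf (z m) (ω m) τ : ℝ) : ℂ) * ch (θ - ω a) τ)
      ((Complex.continuous_ofReal.comp (prod_cont z ω t)).mul (ch_cont _))
    simpa [mul_assoc] using this

theorem J_bound {g : ℝ → ℝ} {R ε : ℝ} (hg : IntervalIntegrable g volume 0 R) {z : ℕ → ℂ} (hz : ∀ m, ‖z m‖ = 1)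
    (ω : ℕ → ℝ) : ∀ (t : Finset ℕ) (θ : ℝ),
    (∀ e : ℕ → ℤ, (∀ m ∈ t, e m = 1 ∨ e m = -1) → (∀ m, m ∉ t → e m = 0) →
      ‖∫ τ in (0:ℝ)..R, ((g τ : ℝ) : ℂ) * ch (θ + ∑ m ∈ t, (e m : ℝ) * ω m) τ‖ ≤ ε) →
    ‖J g R z ω t θ‖ ≤ ε := by
  intro t
  induction t using Finset.induction_on with
  | empty =>
    intro θ h
    have := h (fun _ => 0) (by simp) (by simp)
    unfold J
    simpa using this
  | insert a t ha ih =>
    intro θ h
    rw [J_insert hg z ω ha θ]
    have h1 : ‖J g R z ω t (θ + ω a)‖ ≤ ε := by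
      apply ih
      intro e he1 he0
      have := h (fun m => if m = a then 1 else e m) (by
        intro m hm
        rcases Finset.mem_insert.1 hm with rfl | hm
        · simp
        · have : m ≠ a := fun h => ha (h ▸ hm)
          simpa [this] using he1 m hm) (by
        intro m hm
        have h1 : m ≠ a := fun h => hm (h ▸ Finset.mem_insert_self _ _)
        have h2 : m ∉ t := fun h => hm (Finset.mem_insert_of_mem h)
        simpa [h1] using he0 m h2)
      rw [Finset.sum_insert ha] at this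
      have h2 : ∑ m ∈ t, (((if m = a then 1 else e m : ℤ)) : ℝ) * ω m = ∑ m ∈ t, (e m : ℝ) * ω m := by
        apply Finset.sum_congr rfl
        intro m hm
        have : m ≠ a := fun h => ha (h ▸ hm)
        simp [this]
      rw [h2] at this
      simpa [add_assoc] using this
    have h2 : ‖J g R z ω t (θ - ω a)‖ ≤ ε := by
      apply ih
      intro e he1 he0
      have := h (fun m => if m = a then -1 else e m) (by
        intro m hm
        rcases Finset.mem_insert.1 hm with rfl | hm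
        · simp
        · have : m ≠ a := fun h => ha (h ▸ hm)
          simpa [this] using he1 m hm) (by
        intro m hm
        have h1 : m ≠ a := fun h => hm (h ▸ Finset.mem_insert_self _ _)
        have h2 : m ∉ t := fun h => hm (Finset.mem_insert_of_mem h)
        simpa [h1] using he0 m h2)
      rw [Finset.sum_insert ha] at this
      have h2 : ∑ m ∈ t, (((if m = a then -1 else e m : ℤ)) : ℝ) * ω m = ∑ m ∈ t, (e m : ℝ) * ω m := by
        apply Finset.sum_congr rfl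
        intro m hm
        have : m ≠ a := fun h => ha (h ▸ hm)
        simp [this]
      rw [h2] at this
      simpa [add_assoc, sub_eq_add_neg] using this
    have h3 : ‖z a / 2‖ = 1 / 2 := by rw [norm_div, hz a]; simp
    have h4 : ‖(starRingEnd ℂ) (z a) / 2‖ = 1 / 2 := by rw [norm_div, RCLike.norm_conj, hz a]; simp
    calc ‖z a / 2 * J g R z ω t (θ + ω a) + (starRingEnd ℂ) (z a) / 2 * J g R z ω t (θ - ω a)‖
        ≤ ‖z a / 2 * J g R z ω t (θ + ω a)‖ + ‖(starRingEnd ℂ) (z a) / 2 * J g R z ω t (θ - ω a)‖ := norm_add_le _ _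
      _ = 1 / 2 * ‖J g R z ω t (θ + ω a)‖ + 1 / 2 * ‖J g R z ω t (θ - ω a)‖ := by rw [norm_mul, norm_mul, h3, h4]
      _ ≤ ε := by linarith

theorem J_real {g : ℝ → ℝ} {R : ℝ} (z : ℕ → ℂ) (ω : ℕ → ℝ) (t : Finset ℕ) :
    J g R z ω t 0 = ((∫ τ in (0:ℝ)..R, g τ * ∏ m ∈ t, wf (z m) (ω m) τ : ℝ) : ℂ) := by
  unfold J
  rw [← intervalIntegral.integral_ofReal]
  apply intervalIntegral.integral_congr
  intro τ _
  simp only [ch_zero, mul_one]
  push_cast
  ring

theorem single {g : ℝ → ℝ} {R : ℝ} (hg : IntervalIntegrable g volume 0 R) (z : ℂ) (ω : ℝ) :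
    (∫ τ in (0:ℝ)..R, g τ * wf z ω τ) = (z * ∫ τ in (0:ℝ)..R, ((g τ : ℝ) : ℂ) * ch ω τ).re := by
  rw [← intervalIntegral.integral_const_mul]
  have h1 : IntervalIntegrable (fun τ => z * (((g τ : ℝ) : ℂ) * ch ω τ)) volume 0 R :=
    (int_aux hg (ch_cont ω)).const_mul z
  have h2 := Complex.reCLM.intervalIntegral_comp_comm h1
  have h3 : (∫ τ in (0:ℝ)..R, z * (((g τ : ℝ) : ℂ) * ch ω τ)).re = ∫ τ in (0:ℝ)..R, Complex.reCLM (z * (((g τ : ℝ) : ℂ) * ch ω τ)) := by
    rw [h2]; rfl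
  rw [h3]
  apply intervalIntegral.integral_congr
  intro τ _
  simp only [Complex.reCLM_apply]
  have : z * (((g τ : ℝ) : ℂ) * ch ω τ) = ((g τ : ℝ) : ℂ) * (z * ch ω τ) := by ring
  rw [this, Complex.re_ofReal_mul]
  rfl

theorem riesz {g : ℝ → ℝ} {R ε : ℝ} (hε : 0 ≤ ε) (hg : IntervalIntegrable g volume 0 R) {z : ℕ → ℂ} (hz : ∀ m, ‖z m‖ = 1)
    (ω : ℕ → ℝ) (S : Finset ℕ)
    (h : ∀ e : ℕ → ℤ, (∀ m, |e m| ≤ 1) → (∃ m ∈ S, ∃ n ∈ S, m ≠ n ∧ e m ≠ 0 ∧ e n ≠ 0) →
      ‖∫ τ in (0:ℝ)..R, ((g τ : ℝ) : ℂ) * ch (∑ m ∈ S, (e m : ℝ) * ω m) τ‖ ≤ ε) :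
    |(∫ τ in (0:ℝ)..R, g τ * ∏ m ∈ S, (1 + wf (z m) (ω m) τ)) - (∫ τ in (0:ℝ)..R, g τ) -
      ∑ m ∈ S, (z m * ∫ τ in (0:ℝ)..R, ((g τ : ℝ) : ℂ) * ch (ω m) τ).re| ≤ 2 ^ S.card * ε := by
  classical
  have hint : ∀ t : Finset ℕ, IntervalIntegrable (fun τ => g τ * ∏ m ∈ t, wf (z m) (ω m) τ) volume 0 R :=
    fun t => hg.mul_continuousOn (prod_cont z ω t).continuousOn
  have h1 : (∫ τ in (0:ℝ)..R, g τ * ∏ m ∈ S, (1 + wf (z m) (ω m) τ)) =
      ∑ t ∈ S.powerset, ∫ τ in (0:ℝ)..R, g τ * ∏ m ∈ t, wf (z m) (ω m) τ := by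
    rw [← intervalIntegral.integral_finsetSum (fun t _ => hint t)]
    apply intervalIntegral.integral_congr
    intro τ _
    simp only
    rw [Finset.prod_one_add, Finset.mul_sum]
  set F : Finset ℕ → ℝ := fun t => ∫ τ in (0:ℝ)..R, g τ * ∏ m ∈ t, wf (z m) (ω m) τ with hF
  have h2 : ∑ t ∈ S.powerset, F t = ∑ t ∈ S.powerset.filter (fun t => 2 ≤ t.card), F t + (F ∅ + ∑ m ∈ S, F {m}) := by
    rw [← Finset.sum_filter_add_sum_filter_not S.powerset (fun t => 2 ≤ t.card)]
    congr 1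
    have : S.powerset.filter (fun t => ¬ 2 ≤ t.card) = insert ∅ (S.image (fun m => ({m} : Finset ℕ))) := by
      ext t
      simp only [Finset.mem_filter, Finset.mem_powerset, Finset.mem_insert, Finset.mem_image, not_le]
      constructor
      · rintro ⟨ht, hc⟩
        rcases Nat.lt_or_ge t.card 1 with h0 | h0
        · left
          exact Finset.card_eq_zero.1 (by omega)
        · right
          obtain ⟨a, rfl⟩ := Finset.card_eq_one.1 (show t.card = 1 by omega)
          exact ⟨a, ht (Finset.mem_singleton_self a), rfl⟩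
      · rintro (rfl | ⟨a, ha, rfl⟩)
        · simp
        · simp [ha]
    rw [this, Finset.sum_insert (by simp), Finset.sum_image (by
      intro a _ b _ hab
      exact Finset.singleton_injective hab)]
  have h3 : F ∅ = ∫ τ in (0:ℝ)..R, g τ := by simp [hF]
  have h4 : ∀ m ∈ S, F {m} = (z m * ∫ τ in (0:ℝ)..R, ((g τ : ℝ) : ℂ) * ch (ω m) τ).re := by
    intro m _
    simp only [hF, Finset.prod_singleton]
    exact single hg (z m) (ω m)
  have h5 : ∀ t ∈ S.powerset.filter (fun t => 2 ≤ t.card), |F t| ≤ ε := by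
    intro t ht
    obtain ⟨htS, hc⟩ := Finset.mem_filter.1 ht
    rw [Finset.mem_powerset] at htS
    have h6 := J_bound (R := R) (ε := ε) hg hz ω t 0 (by
      intro e he1 he0
      obtain ⟨a, ha, b, hb, hab⟩ := Finset.one_lt_card.1 (show 1 < t.card by omega)
      have := h e (by
        intro m
        by_cases hm : m ∈ t
        · rcases he1 m hm with h | h <;> simp [h]
        · simp [he0 m hm]) ⟨a, htS ha, b, htS hb, hab, by rcases he1 a ha with h | h <;> simp [h],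
          by rcases he1 b hb with h | h <;> simp [h]⟩
      have h7 : ∑ m ∈ S, (e m : ℝ) * ω m = ∑ m ∈ t, (e m : ℝ) * ω m := by
        symm
        apply Finset.sum_subset htS
        intro m _ hm
        simp [he0 m hm]
      rw [h7] at this
      simpa using this)
    rw [J_real, Complex.norm_real, Real.norm_eq_abs] at h6
    exact h6
  rw [h1, h2, h3, Finset.sum_congr rfl h4]
  have h8 : |∑ t ∈ S.powerset.filter (fun t => 2 ≤ t.card), F t| ≤ 2 ^ S.card * ε := by
    calc |∑ t ∈ S.powerset.filter (fun t => 2 ≤ t.card), F t|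
        ≤ ∑ t ∈ S.powerset.filter (fun t => 2 ≤ t.card), |F t| := Finset.abs_sum_le_sum_abs _ _
      _ ≤ ∑ t ∈ S.powerset.filter (fun t => 2 ≤ t.card), ε := Finset.sum_le_sum h5
      _ = (S.powerset.filter (fun t => 2 ≤ t.card)).card * ε := by rw [Finset.sum_const, nsmul_eq_mul]
      _ ≤ 2 ^ S.card * ε := by
        apply mul_le_mul_of_nonneg_right _ hε
        have := Finset.card_filter_le S.powerset (fun t => 2 ≤ t.card)
        rw [Finset.card_powerset] at this
        exact_mod_cast this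
  have h9 : ∀ a b c : ℝ, a + (b + c) - b - c = a := by intros; ring
  rw [h9]
  exact h8

end Pool.Agent.Helper10.E7
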