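import Pool.Agent.Helper66.E7.Defs
import Pool.Agent.Helper10.E7.J0

/-!
# 7E+ block J: the Riesz product
-/

set_option autoImplicit false

open Complex MeasureTheory Set

namespace Pool.Agent.E7

theorem stmtJ : StmtJ := by
  intro S z ω R ε g hR hε hz hg h
  have := Pool.Agent.Helper10.E7.riesz (R := R) (ε := ε) hε hg hz ω S (fun e h1 h2 => h e h1 h2)
  refine le_trans this ?_
  apply mul_le_mul_of_nonneg_right _ hε
  exact pow_le_pow_left₀ (by norm_num) (by norm_num) _

end Pool.Agent.E7
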