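import Mathlib

/-!
# 7E+ block N: squarefree numbers (core, Mathlib only)
-/

set_option autoImplicit false

namespace Pool.Agent.Helper10.E7

theorem mult_card (N q : ℕ) (hq : 0 < q) :
    (((Finset.Ioc (8 * N) (16 * N)).filter (fun n => q ∣ n)).card : ℝ) ≤ 8 * N / q + 1 := by
  have h1 : ((Finset.Ioc (8 * N) (16 * N)).filter (fun n => q ∣ n)).card ≤ (8 * N) / q + 1 := by
    have h2 : (Finset.Ioc (8 * N) (16 * N)).filter (fun n => q ∣ n) ⊆ (Finset.Ioc (8 * N / q) (8 * N / q + (8 * N / q + 1))).image (fun k => q * k) := by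
      intro n hn
      obtain ⟨hn, k, rfl⟩ := Finset.mem_filter.1 hn
      rw [Finset.mem_Ioc] at hn
      refine Finset.mem_image.2 ⟨k, ?_, rfl⟩
      rw [Finset.mem_Ioc]
      constructor
      · exact Nat.div_lt_of_lt_mul hn.1
      · by_contra hk
        push Not at hk
        have h3 : 8 * N < q * (8 * N / q + 1) := Nat.lt_mul_div_succ _ hq
        have h4 : q * (8 * N / q + (8 * N / q + 1) + 1) ≤ q * k := Nat.mul_le_mul_left q hk
        have h5 : q * (8 * N / q + (8 * N / q + 1) + 1) = q * (8 * N / q + 1) + q * (8 * N / q + 1) := by ring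
        omega
    calc _ ≤ ((Finset.Ioc (8 * N / q) (8 * N / q + (8 * N / q + 1))).image (fun k => q * k)).card := Finset.card_le_card h2
      _ ≤ (Finset.Ioc (8 * N / q) (8 * N / q + (8 * N / q + 1))).card := Finset.card_image_le
      _ = 8 * N / q + 1 := by rw [Nat.card_Ioc, Nat.add_sub_cancel_left]
  calc (((Finset.Ioc (8 * N) (16 * N)).filter (fun n => q ∣ n)).card : ℝ) ≤ (((8 * N) / q + 1 : ℕ) : ℝ) := by exact_mod_cast h1
    _ = (((8 * N) / q : ℕ) : ℝ) + 1 := by push_cast; ring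
    _ ≤ ((8 * N : ℕ) : ℝ) / (q : ℝ) + 1 := by
        have := @Nat.cast_div_le ℝ _ _ _ (8 * N) q
        linarith
    _ = 8 * N / q + 1 := by push_cast; ring

theorem sum_inv_sq (D : ℕ) : ∑ d ∈ Finset.Icc 2 (D + 2), (1 : ℝ) / (d : ℝ) ^ 2 ≤ 3 / 4 - 1 / (D + 2) := by
  induction D with
  | zero => norm_num
  | succ D ih =>
    rw [show D + 1 + 2 = (D + 2) + 1 by ring, Finset.sum_Icc_succ_top (by omega)]
    have h1 : (1 : ℝ) / (((D + 2 + 1 : ℕ) : ℝ)) ^ 2 ≤ 1 / (D + 2) - 1 / (D + 3) := by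
      push_cast
      rw [div_sub_div _ _ (by positivity) (by positivity), div_le_div_iff₀ (by positivity) (by positivity)]
      nlinarith [(Nat.cast_nonneg D : (0:ℝ) ≤ D)]
    have h2 : (1 : ℝ) / (((D + 1 : ℕ) : ℝ) + 2) = 1 / (D + 3) := by push_cast; ring
    rw [h2]
    linarith

theorem sqf_card (N : ℕ) (hN : 16 ≤ N) : (N : ℝ) ≤ (((Finset.Ioc (8 * N) (16 * N)).filter Squarefree).card : ℝ) := by
  classical
  set D := Nat.sqrt (16 * N) with hD
  have h1 : (Finset.Ioc (8 * N) (16 * N)).filter (fun n => ¬ Squarefree n) ⊆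
      (Finset.Icc 2 D).biUnion (fun d => (Finset.Ioc (8 * N) (16 * N)).filter (fun n => d ^ 2 ∣ n)) := by
    intro n hn
    obtain ⟨hn, hs⟩ := Finset.mem_filter.1 hn
    rw [Finset.mem_Ioc] at hn
    rw [Nat.squarefree_iff_prime_squarefree] at hs
    push Not at hs
    obtain ⟨p, hp, hd⟩ := hs
    refine Finset.mem_biUnion.2 ⟨p, ?_, Finset.mem_filter.2 ⟨Finset.mem_Ioc.2 hn, by rwa [sq]⟩⟩
    rw [Finset.mem_Icc]
    refine ⟨hp.two_le, ?_⟩
    rw [hD, Nat.le_sqrt]
    exact le_trans (Nat.le_of_dvd (by omega) hd) hn.2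
  have h2 : (((Finset.Ioc (8 * N) (16 * N)).filter (fun n => ¬ Squarefree n)).card : ℝ) ≤ 8 * N * (3 / 4) + D := by
    calc (((Finset.Ioc (8 * N) (16 * N)).filter (fun n => ¬ Squarefree n)).card : ℝ)
        ≤ (((Finset.Icc 2 D).biUnion (fun d => (Finset.Ioc (8 * N) (16 * N)).filter (fun n => d ^ 2 ∣ n))).card : ℝ) := by
          exact_mod_cast Finset.card_le_card h1
      _ ≤ ((∑ d ∈ Finset.Icc 2 D, ((Finset.Ioc (8 * N) (16 * N)).filter (fun n => d ^ 2 ∣ n)).card : ℕ) : ℝ) := by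
          exact_mod_cast Finset.card_biUnion_le
      _ = ∑ d ∈ Finset.Icc 2 D, (((Finset.Ioc (8 * N) (16 * N)).filter (fun n => d ^ 2 ∣ n)).card : ℝ) := by push_cast; rfl
      _ ≤ ∑ d ∈ Finset.Icc 2 D, (8 * N * (1 / (d : ℝ) ^ 2) + 1) := by
          apply Finset.sum_le_sum
          intro d hd
          rw [Finset.mem_Icc] at hd
          have := mult_card N (d ^ 2) (pow_pos (by omega) 2)
          push_cast at this
          calc _ ≤ _ := this
            _ = _ := by ring
      _ = 8 * N * (∑ d ∈ Finset.Icc 2 D, 1 / (d : ℝ) ^ 2) + ((Finset.Icc 2 D).card : ℝ) := by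
          rw [Finset.sum_add_distrib, ← Finset.mul_sum]
          simp
      _ ≤ 8 * N * (3 / 4) + D := by
          have h3 : ∑ d ∈ Finset.Icc 2 D, 1 / (d : ℝ) ^ 2 ≤ 3 / 4 := by
            have hD2 : 2 ≤ D := by
              rw [hD, Nat.le_sqrt]; omega
            have := sum_inv_sq (D - 2)
            rw [show D - 2 + 2 = D by omega] at this
            have h4 : (0:ℝ) ≤ 1 / (((D - 2 : ℕ) : ℝ) + 2) := by positivity
            linarith
          have h5 : ((Finset.Icc 2 D).card : ℝ) ≤ D := by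
            rw [Nat.card_Icc]
            have : D + 1 - 2 ≤ D := by omega
            exact_mod_cast this
          have h6 : (0:ℝ) ≤ 8 * N := by positivity
          nlinarith [mul_le_mul_of_nonneg_left h3 h6]
  have h3 : ((Finset.Ioc (8 * N) (16 * N)).filter Squarefree).card + ((Finset.Ioc (8 * N) (16 * N)).filter (fun n => ¬ Squarefree n)).card = 8 * N := by
    rw [Finset.card_filter_add_card_filter_not, Nat.card_Ioc]; omega
  have h4 : (D : ℝ) ≤ N := by
    have : D ≤ N := by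
      by_contra hc
      push Not at hc
      have h6 : D * D ≤ 16 * N := Nat.sqrt_le (16 * N)
      nlinarith
    exact_mod_cast this
  have h5 : (((Finset.Ioc (8 * N) (16 * N)).filter Squarefree).card : ℝ) + (((Finset.Ioc (8 * N) (16 * N)).filter (fun n => ¬ Squarefree n)).card : ℝ) = 8 * N := by
    exact_mod_cast h3
  linarith

end Pool.Agent.Helper10.E7
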