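import Pool.Agent.Helper66.E7.Defs
import Pool.Agent.Helper10.E7.N0

/-!
# 7E+ block N: squarefree numbers
-/

set_option autoImplicit false

namespace Pool.Agent.E7

theorem stmtN : StmtN := ⟨16, fun N hN => Pool.Agent.Helper10.E7.sqf_card N hN⟩

end Pool.Agent.E7
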