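import Mathlib

/-!
# 7E+ block N2: a dyadic interval with many divisors of the primorial (core, Mathlib only)
-/

set_option autoImplicit false

open Filter Topology

namespace Pool.Agent.Helper10.E7

/-- `1 / √n` -/
noncomputable def isq : ArithmeticFunction ℝ := ⟨fun n => 1 / Real.sqrt n, by simp⟩

theorem isq_apply (n : ℕ) : isq n = 1 / Real.sqrt n := rfl

theorem isq_mult : isq.IsMultiplicative := by
  refine ⟨by simp [isq_apply], fun {m n} _ => ?_⟩
  simp only [isq_apply]
  push_cast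
  rw [Real.sqrt_mul (Nat.cast_nonneg m)]
  field_simp

theorem sqf_primorial (y : ℕ) : Squarefree (primorial y) := squarefree_primorial y

theorem exp_half_le {x : ℝ} (h0 : 0 ≤ x) (h1 : x ≤ 1) : Real.exp (x / 2) ≤ 1 + x := by
  have h2 := Real.abs_exp_sub_one_sub_id_le (x := x / 2) (by rw [abs_le]; constructor <;> linarith)
  have h3 := (abs_le.1 h2).2
  nlinarith

/-- the sum over all divisors -/
theorem total_ge (y : ℕ) (hy : 1 ≤ y) :
    Real.exp ((Nat.primeCounting y : ℝ) / (2 * Real.sqrt y)) ≤ ∑ m ∈ (primorial y).divisors, 1 / Real.sqrt m := by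
  have h1 := isq_mult.prodPrimeFactors_one_add_of_squarefree (sqf_primorial y)
  simp only [isq_apply] at h1
  rw [← h1, primeFactors_primorial]
  have hy0 : (0:ℝ) < Real.sqrt y := Real.sqrt_pos.2 (by exact_mod_cast hy)
  calc Real.exp ((Nat.primeCounting y : ℝ) / (2 * Real.sqrt y))
      = Real.exp (1 / Real.sqrt y / 2) ^ (Nat.primesLE y).card := by
        rw [Nat.primesLE_card_eq_primeCounting, ← Real.exp_nat_mul]
        congr 1
        field_simp
    _ = ∏ p ∈ Nat.primesLE y, Real.exp (1 / Real.sqrt y / 2) := by rw [Finset.prod_const]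
    _ ≤ ∏ p ∈ Nat.primesLE y, (1 + 1 / Real.sqrt p) := by
        apply Finset.prod_le_prod (fun _ _ => (Real.exp_pos _).le)
        intro p hp
        rw [Nat.mem_primesLE] at hp
        have hp1 : (1:ℝ) ≤ p := by exact_mod_cast hp.2.one_lt.le
        have hp2 : (p:ℝ) ≤ y := by exact_mod_cast hp.1
        have hs1 : (1:ℝ) ≤ Real.sqrt p := by rw [Real.one_le_sqrt]; exact hp1
        have hs2 : Real.sqrt p ≤ Real.sqrt y := Real.sqrt_le_sqrt hp2
        have h2 : 1 / Real.sqrt y ≤ 1 / Real.sqrt p := one_div_le_one_div_of_le (by linarith) hs2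
        have h3 : 1 / Real.sqrt p ≤ 1 := by rw [div_le_one (by linarith)]; exact hs1
        calc Real.exp (1 / Real.sqrt y / 2) ≤ Real.exp (1 / Real.sqrt p / 2) := Real.exp_le_exp.2 (by linarith)
          _ ≤ 1 + 1 / Real.sqrt p := exp_half_le (by positivity) h3

/-- Chebyshev's lower bound -/
theorem pi_lower (y : ℕ) (hy : 16 ≤ y) : (1 / 2 : ℝ) * (y / Real.log y) ≤ Nat.primeCounting y := by
  have h1 := Chebyshev.pi_ge y
  have hyr : (16:ℝ) ≤ y := by exact_mod_cast hy
  have hl : 0 < Real.log y := Real.log_pos (by linarith)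
  refine le_trans ?_ h1
  rw [← mul_div_assoc, div_le_div_iff_of_pos_right hl]
  have h2 : (0.6931471803 : ℝ) < Real.log 2 := Real.log_two_gt_d9
  -- log (y + 1) ≤ 3 y / 16
  have h3 : Real.log (y + 1) ≤ (3 / 16) * y := by
    have h4 : Real.log ((y + 1) / 17) ≤ (y + 1) / 17 - 1 := Real.log_le_sub_one_of_pos (by positivity)
    have h5 : Real.log (y + 1) = Real.log ((y + 1) / 17) + Real.log 17 := by
      rw [← Real.log_mul (by positivity) (by norm_num)]
      congr 1
      field_simp
    have h6 : Real.log 17 ≤ 3 := by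
      rw [Real.log_le_iff_le_exp (by norm_num)]
      have h7 : (2.7182818283 : ℝ) < Real.exp 1 := Real.exp_one_gt_d9
      have h8 : Real.exp 3 = Real.exp 1 ^ 3 := by rw [← Real.exp_nat_mul]; norm_num
      rw [h8]
      calc (17:ℝ) ≤ 2.7 ^ 3 := by norm_num
        _ ≤ Real.exp 1 ^ 3 := pow_le_pow_left₀ (by norm_num) (by linarith) 3
    linarith
  nlinarith

/-- the eventual inequality -/
theorem ev_ineq : ∃ y0 : ℕ, ∀ y : ℕ, y0 ≤ y → 2 * (y:ℝ) + 8 < Real.exp ((1 / 8) * (Real.sqrt y / Real.log y)) := by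
  have h1 : (fun x : ℝ => Real.log x ^ 2) =o[atTop] id := Real.isLittleO_pow_log_id_atTop
  have h2 : ∀ᶠ x : ℝ in atTop, Real.log x ^ 2 ≤ (1 / 128) * x := by
    have := h1.bound (show (0:ℝ) < 1 / 128 by norm_num)
    filter_upwards [this, eventually_ge_atTop (0:ℝ)] with x hx hx0
    simp only [id, Real.norm_eq_abs, abs_pow, sq_abs] at hx
    rwa [abs_of_nonneg hx0] at hx
  have h3 : Tendsto (fun y : ℕ => Real.sqrt (y:ℝ)) atTop atTop :=
    Real.tendsto_sqrt_atTop.comp tendsto_natCast_atTop_atTop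
  have h4 := h3.eventually h2
  obtain ⟨y0, hy0⟩ := eventually_atTop.1 (h4.and (eventually_ge_atTop 5))
  refine ⟨y0, fun y hy => ?_⟩
  obtain ⟨h5, h6⟩ := hy0 y hy
  have hyr : (5:ℝ) ≤ y := by exact_mod_cast h6
  have hl : 0 < Real.log y := Real.log_pos (by linarith)
  have h7 : Real.log (Real.sqrt y) = Real.log y / 2 := Real.log_sqrt (by linarith)
  rw [h7] at h5
  have h8 : 2 * (y:ℝ) + 8 < (y:ℝ) ^ 2 := by nlinarith
  have h9 : (y:ℝ) ^ 2 = Real.exp (2 * Real.log y) := by
    rw [two_mul, Real.exp_add, Real.exp_log (by linarith)]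
    ring
  refine lt_of_lt_of_le h8 ?_
  rw [h9, Real.exp_le_exp]
  rw [← mul_div_assoc, le_div_iff₀ hl]
  nlinarith

theorem dyadic (y : ℕ) (E : ℝ) (hE : 1 ≤ E)
    (h : ∀ j ∈ Finset.Ico 3 (2 * y), ∑ m ∈ (Finset.Ioc (2 ^ j) (2 ^ (j + 1))).filter (fun m => m ∣ primorial y), 1 / Real.sqrt m ≤ E) :
    ∑ m ∈ (primorial y).divisors, 1 / Real.sqrt m ≤ 8 + 2 * y * E := by
  classical
  rw [← Finset.sum_filter_add_sum_filter_not (primorial y).divisors (fun m => m ≤ 8)]
  apply add_le_add
  · calc ∑ m ∈ (primorial y).divisors with m ≤ 8, 1 / Real.sqrt m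
        ≤ ∑ m ∈ Finset.Icc (1:ℕ) 8, 1 / Real.sqrt (m:ℝ) := by
          apply Finset.sum_le_sum_of_subset_of_nonneg
          · intro m hm
            rw [Finset.mem_filter] at hm
            rw [Finset.mem_Icc]
            exact ⟨Nat.pos_of_mem_divisors hm.1, hm.2⟩
          · intro m _ _
            positivity
      _ ≤ ∑ m ∈ Finset.Icc (1:ℕ) 8, (1:ℝ) := by
          apply Finset.sum_le_sum
          intro m hm
          rw [Finset.mem_Icc] at hm
          have h1 : (1:ℝ) ≤ Real.sqrt m := by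
            rw [Real.one_le_sqrt]; exact_mod_cast hm.1
          rw [div_le_one (by linarith)]
          exact h1
      _ = 8 := by norm_num
  · have hmaps : ∀ m ∈ (primorial y).divisors.filter (fun m => ¬ m ≤ 8), Nat.log 2 (m - 1) ∈ Finset.Ico 3 (2 * y) := by
      intro m hm
      rw [Finset.mem_filter, Nat.mem_divisors] at hm
      obtain ⟨⟨hd, hne⟩, h8⟩ := hm
      rw [Finset.mem_Ico]
      constructor
      · apply Nat.le_log_of_pow_le (by norm_num)
        omega
      · apply Nat.log_lt_of_lt_pow (by omega)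
        have h1 : m ≤ 4 ^ y := (Nat.le_of_dvd (Nat.pos_of_ne_zero hne) hd).trans (primorial_le_four_pow y)
        have h2 : (4:ℕ) ^ y = 2 ^ (2 * y) := by rw [pow_mul]; norm_num
        omega
    rw [← Finset.sum_fiberwise_of_maps_to hmaps]
    calc ∑ j ∈ Finset.Ico 3 (2 * y), ∑ m ∈ ((primorial y).divisors.filter (fun m => ¬ m ≤ 8)).filter (fun m => Nat.log 2 (m - 1) = j), 1 / Real.sqrt (m:ℝ)
        ≤ ∑ j ∈ Finset.Ico 3 (2 * y), E := by
          apply Finset.sum_le_sum
          intro j hj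
          refine le_trans ?_ (h j hj)
          apply Finset.sum_le_sum_of_subset_of_nonneg
          · intro m hm
            rw [Finset.mem_filter, Finset.mem_filter, Nat.mem_divisors] at hm
            obtain ⟨⟨⟨hd, hne⟩, h8⟩, hlog⟩ := hm
            rw [Finset.mem_filter, Finset.mem_Ioc]
            have h1 : 2 ^ j ≤ m - 1 := by
              rw [← hlog]; exact Nat.pow_log_le_self 2 (by omega)
            have h2 : m - 1 < 2 ^ (j + 1) := by
              rw [← hlog]; exact Nat.lt_pow_succ_log_self (by norm_num) _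
            exact ⟨⟨by omega, by omega⟩, hd⟩
          · intro m _ _
            positivity
      _ = ((2 * y - 3 : ℕ) : ℝ) * E := by rw [Finset.sum_const, Nat.card_Ico, nsmul_eq_mul]
      _ ≤ 2 * y * E := by
          apply mul_le_mul_of_nonneg_right _ (by linarith)
          have : 2 * y - 3 ≤ 2 * y := by omega
          exact_mod_cast this

theorem n2 : ∃ y0 : ℕ, ∀ y : ℕ, y0 ≤ y → ∃ j : ℕ, 3 ≤ j ∧ 2 ^ j ≤ 4 ^ y ∧
    Real.exp ((1 / 8) * (Real.sqrt y / Real.log y)) ≤
      ∑ m ∈ (Finset.Ioc (2 ^ j) (2 ^ (j + 1))).filter (fun m => m ∣ primorial y), 1 / Real.sqrt m := by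
  obtain ⟨y0, hy0⟩ := ev_ineq
  refine ⟨max y0 16, fun y hy => ?_⟩
  have hy1 : y0 ≤ y := (le_max_left _ _).trans hy
  have hy2 : 16 ≤ y := (le_max_right _ _).trans hy
  by_contra hcon
  push Not at hcon
  set E := Real.exp ((1 / 8) * (Real.sqrt y / Real.log y)) with hE
  have h1 := hy0 y hy1
  have hyr : (16:ℝ) ≤ y := by exact_mod_cast hy2
  have h2 := dyadic y E (by linarith) (fun j hj => by
    rw [Finset.mem_Ico] at hj
    refine (hcon j hj.1 ?_).le
    have h3 : (4:ℕ) ^ y = 2 ^ (2 * y) := by rw [pow_mul]; norm_num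
    rw [h3]
    exact Nat.pow_le_pow_right (by norm_num) (by omega))
  have h3 := total_ge y (by omega)
  have h4 := pi_lower y hy2
  have hl : 0 < Real.log y := Real.log_pos (by linarith)
  have hs : 0 < Real.sqrt y := Real.sqrt_pos.2 (by linarith)
  have h5 : E ^ 2 ≤ Real.exp ((Nat.primeCounting y : ℝ) / (2 * Real.sqrt y)) := by
    rw [hE, ← Real.exp_nat_mul, Real.exp_le_exp]
    rw [le_div_iff₀ (by positivity)]
    refine le_trans (le_of_eq ?_) h4
    have h6 : Real.sqrt y * Real.sqrt y = y := Real.mul_self_sqrt (by linarith)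
    push_cast
    field_simp
    nlinarith [h6]
  nlinarith

end Pool.Agent.Helper10.E7
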