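import Pool.Agent.Helper66.E7.Defs2
import Pool.Agent.Helper10.E7.N20

/-!
# 7E+ block N2: a dyadic interval with many divisors of the primorial
-/

set_option autoImplicit false

namespace Pool.Agent.E7

theorem stmtN2 : StmtN2 := ⟨1 / 8, by norm_num, Pool.Agent.Helper10.E7.n2⟩

end Pool.Agent.E7
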